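import Mathlib
import Pool.Agent.P.MP_c19edd_an.Alt

open Filter Topology Pool.Agent.P.MP_c19edd_an.Gen

namespace Pool.Agent.Results.MP_c19edd_an.CriticalRatio

theorem result (w : ℕ → ℕ) (hw : Monotone w) :
    (∀ x : ℕ → ℝ, (∀ n, 1 ≤ n → 0 < x n) →
      Tendsto (fun n => x (n + 1) / x n) atTop (𝓝 (1 / 2)) →
      (∃ B : ℝ, ∃ᶠ n in atTop, 2 ^ n * x n ≤ B) →
      (∀ K : ℝ, 0 < K → ∃ D : ℕ, ∀ᶠ n in atTop, ∃ m, n < m ∧ m ≤ n + w n + D ∧
        0 < x m - ∑' i, x (m + 1 + i) ∧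
        ∀ j, n + w n + D < j → K * (∑' i, x (j + 1 + i) - x j) ≤ x m - ∑' i, x (m + 1 + i)) →
      Nonempty ({y : ℝ | ∃ A : Set ℕ, (∀ n ∈ A, 1 ≤ n) ∧ HasSum (fun n : A => x n) y} ≃ₜ
        cantorSet)) ↔
    BddAbove (Set.range w) := by
  constructor
  · intro h
    by_contra hu
    have ht := w_top hw hu
    refine not_cantor (E := _) ?_ (h (xs w) (fun n _ => xs_pos w n) (ratio_of_lim (xs_lim ht))
      ⟨2, Frequently.of_forall (xs_bound w)⟩ fun K hK =>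
        ⟨2, eventually_atTop.2 (xs_gap hw ht K hK)⟩)
    rw [TT_eq]
    exact xs_interior w
  · rintro ⟨W, hW⟩ x hpos hq ⟨B, hB⟩ h
    refine crit hpos hq hB fun K hK => ?_
    obtain ⟨D, hD⟩ := h K hK
    obtain ⟨N, hN⟩ := eventually_atTop.1 hD
    refine ⟨W + D, N, fun n hn => ?_⟩
    obtain ⟨m, h1, h2, h3, h4⟩ := hN n hn
    have := hW ⟨n, rfl⟩
    exact ⟨m, h1, by omega, h3, fun j hj => h4 j (by omega)⟩

end Pool.Agent.Results.MP_c19edd_an.CriticalRatio
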