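import Mathlib
import Pool.Agent.P.MP_c19edd_an.Main

set_option autoImplicit false

namespace Pool.Agent.Results.MP_c19edd_an.JonesCantor

theorem result : Nonempty ({y : ℝ | ∃ A : Set ℕ, (∀ n ∈ A, 1 ≤ n) ∧
    HasSum (fun n : A => (1 : ℝ) / 2 ^ (n : ℕ) + (-1) ^ (n : ℕ) / 3 ^ (n : ℕ)) y} ≃ₜ cantorSet) :=
  Pool.Agent.P.MP_c19edd_an.main

end Pool.Agent.Results.MP_c19edd_an.JonesCantor
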